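import Pool.Agent.W363.JQ.Stm

set_option autoImplicit false
open Filter Topology Set Metric
open Pool.Agent.W363.JQ

namespace Pool.Agent.W368.JQ

lemma per_int {φ : ℝ → ℂ} (hp : ∀ t, φ (t + 1) = φ t) (k : ℤ) (t : ℝ) : φ (t + k) = φ t := by
  have h1 : Function.Periodic φ 1 := hp
  have h2 := h1.int_mul k t
  simpa using h2

lemma unif_small {φ : ℝ → ℂ} (hc : Continuous φ) (hp : ∀ t, φ (t + 1) = φ t) {e : ℝ} (he : 0 < e) :
    ∃ δ : ℝ, 0 < δ ∧ δ < 1 / 2 ∧ ∀ s t : ℝ, |s - t| ≤ δ → dist (φ s) (φ t) < e := by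
  have hcpt : IsCompact (Icc (-1 : ℝ) 2) := isCompact_Icc
  have hu := hcpt.uniformContinuousOn_of_continuous hc.continuousOn
  rw [Metric.uniformContinuousOn_iff] at hu
  obtain ⟨δ, hδ, hδ'⟩ := hu e he
  refine ⟨min (δ / 2) (1 / 4), lt_min (by linarith) (by norm_num),
    lt_of_le_of_lt (min_le_right _ _) (by norm_num), ?_⟩
  intro s t hst
  have h1 : |s - t| ≤ δ / 2 := hst.trans (min_le_left _ _)
  have h2 : |s - t| ≤ 1 / 4 := hst.trans (min_le_right _ _)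
  obtain ⟨h3, h4⟩ := abs_le.1 h2
  set k : ℤ := -⌊s⌋ with hk
  have e1 : φ s = φ (s + k) := (per_int hp k s).symm
  have e2 : φ t = φ (t + k) := (per_int hp k t).symm
  have f1 : (⌊s⌋ : ℝ) ≤ s := Int.floor_le s
  have f2 : s < ⌊s⌋ + 1 := Int.lt_floor_add_one s
  have f3 : (k : ℝ) = -(⌊s⌋ : ℝ) := by rw [hk]; push_cast; ring
  rw [e1, e2]
  refine hδ' _ ⟨by rw [f3]; linarith, by rw [f3]; linarith⟩ _
    ⟨by rw [f3]; linarith, by rw [f3]; linarith⟩ ?_
  rw [Real.dist_eq]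
  have : s + k - (t + k) = s - t := by ring
  rw [this]
  linarith

lemma it_phi {f : Polynomial ℂ} {φ : ℝ → ℂ} {D : ℕ} (hconj : ∀ t, f.eval (φ t) = φ (D * t))
    (n : ℕ) (t : ℝ) : it f n (φ t) = φ ((D : ℝ) ^ n * t) := by
  induction n with
  | zero => simp [it]
  | succ n ih =>
    have h1 : it f (n + 1) (φ t) = f.eval (it f n (φ t)) := by
      simp only [it]
      rw [Function.iterate_succ_apply']
    rw [h1, ih, hconj]
    congr 1
    ring

lemma bu_pow {f : Polynomial ℂ} {φ : ℝ → ℂ} {D : ℕ} (hconj : ∀ t, f.eval (φ t) = φ (D * t))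
    (hbu : BU D φ) (n : ℕ) : ∀ t t' : ℝ, φ t = φ t' →
      (∃ k : ℤ, (D : ℝ) ^ n * t' = (D : ℝ) ^ n * t + k) → ∃ k : ℤ, t' = t + k := by
  induction n with
  | zero =>
    intro t t' _ h
    obtain ⟨k, hk⟩ := h
    exact ⟨k, by simpa using hk⟩
  | succ n ih =>
    intro t t' h hk
    obtain ⟨k, hk⟩ := hk
    apply ih t t' h
    apply hbu
    · rw [← it_phi hconj n t, ← it_phi hconj n t', h]
    · refine ⟨k, ?_⟩
      have : (D : ℝ) ^ (n + 1) = D * (D : ℝ) ^ n := by ring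
      rw [this] at hk
      linarith

lemma per_pow {φ : ℝ → ℂ} {D : ℕ} {x : ℂ} {N : ℕ}
    (h : ∀ t, φ t = x → ∃ k : ℤ, (D : ℝ) ^ N * t = t + k) (m : ℕ) :
    ∀ t, φ t = x → ∃ k : ℤ, (D : ℝ) ^ (N * m) * t = t + k := by
  intro t ht
  obtain ⟨k, hk⟩ := h t ht
  induction m with
  | zero => exact ⟨0, by simp⟩
  | succ m ih =>
    obtain ⟨l, hl⟩ := ih
    refine ⟨l + (D : ℤ) ^ (N * m) * k, ?_⟩
    have : (D : ℝ) ^ (N * (m + 1)) * t = (D : ℝ) ^ (N * m) * ((D : ℝ) ^ N * t) := by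
      rw [Nat.mul_succ, pow_add]; ring
    rw [this, hk, mul_add, hl]
    push_cast
    ring

theorem pair (h1 : S_basic) (h2 : S_hypiter) (h3 : S_exn) (h4 : S_bu) (h5 : S_perang)
    (h6 : S_sep) : S_pair := by
  intro f r U Φ φ hB hD hΦ hφ hinf
  classical
  have hr : 0 < r := hD.ex.1
  obtain ⟨hbu, hlift⟩ := h4 f r Φ φ hB hD.ex hΦ hφ
  set D := f.natDegree with hDdef
  have hD2 : 2 ≤ D := hB.deg
  obtain ⟨δ, hδ, hδ2, hδu⟩ := unif_small hφ.cont hφ.per (e := r / 2) (by linarith)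
  -- angles
  set P : Set ℂ := {x : ℂ | x ∈ frontier U ∧ ∃ q : ℕ, 1 ≤ q ∧ it f q x = x} with hP
  have hang : ∀ x : ℂ, x ∈ P → ∃ t : ℝ, 0 ≤ t ∧ t < 1 ∧ φ t = x := by
    intro x hx
    have hxJ : x ∈ JJ f := hD.fr hx.1
    rw [← hφ.rng] at hxJ
    obtain ⟨t, ht⟩ := hxJ
    refine ⟨Int.fract t, Int.fract_nonneg t, Int.fract_lt_one t, ?_⟩
    rw [← ht, ← per_int hφ.per ⌊t⌋ (Int.fract t), Int.fract_add_floor]
  choose! θ hθ0 hθ1 hθ using hang
  obtain ⟨x, hx, y, hy, hxy, hfl⟩ := hinf.exists_ne_map_eq_of_mapsTo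
    (f := fun x => ⌊θ x / δ⌋) (t := Icc (0 : ℤ) ⌊1 / δ⌋) (by
      intro x hx
      refine ⟨Int.floor_nonneg.2 (div_nonneg (hθ0 x hx) hδ.le), Int.floor_le_floor ?_⟩
      exact div_le_div_of_nonneg_right (hθ1 x hx).le hδ.le) (finite_Icc _ _)
  have hclose : |θ x - θ y| < δ := by
    have := Int.abs_sub_lt_one_of_floor_eq_floor hfl
    rw [← sub_div, abs_div, abs_of_pos hδ, div_lt_one hδ] at this
    exact this
  -- two close angles
  obtain ⟨t, t', htt, hclose', htP, htP'⟩ : ∃ t t' : ℝ, t < t' ∧ t' - t < δ ∧ φ t ∈ P ∧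
      φ t' ∈ P ∧ φ t ≠ φ t' := by
    have hne : θ x ≠ θ y := by
      intro e
      apply hxy
      rw [← hθ x hx, ← hθ y hy, e]
    obtain ⟨c1, c2⟩ := abs_lt.1 hclose
    rcases lt_or_gt_of_ne hne with h | h
    · refine ⟨θ x, θ y, h, by linarith, ?_, ?_, ?_⟩
      · rw [hθ x hx]; exact hx
      · rw [hθ y hy]; exact hy
      · rw [hθ x hx, hθ y hy]; exact hxy
    · refine ⟨θ y, θ x, h, by linarith, ?_, ?_, ?_⟩
      · rw [hθ y hy]; exact hy
      · rw [hθ x hx]; exact hx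
      · rw [hθ x hx, hθ y hy]; exact hxy.symm
  obtain ⟨htP', hneφ⟩ := htP'
  -- α
  have hAc : IsCompact (Icc t t' ∩ φ ⁻¹' {φ t}) :=
    isCompact_Icc.inter_right (isClosed_singleton.preimage hφ.cont)
  obtain ⟨α, ⟨hαI, hα⟩, hαmax⟩ := hAc.exists_isGreatest ⟨t, ⟨le_rfl, htt.le⟩, rfl⟩
  have hα' : φ α = φ t := hα
  have hBc : IsCompact (Icc α t' ∩ φ ⁻¹' {φ t'}) :=
    isCompact_Icc.inter_right (isClosed_singleton.preimage hφ.cont)
  obtain ⟨β, ⟨hβI, hβ⟩, hβmin⟩ := hBc.exists_isLeast ⟨t', ⟨hαI.2, le_rfl⟩, rfl⟩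
  have hβ' : φ β = φ t' := hβ
  have hneαβ : φ α ≠ φ β := by rw [hα', hβ']; exact hneφ
  have hab : α < β := by
    refine lt_of_le_of_ne hβI.1 ?_
    intro e
    exact hneαβ (by rw [e])
  have hba : β - α < δ := by linarith [hαI.1, hβI.2]
  have hlast : ∀ u ∈ Ioo α β, φ u ≠ φ α := by
    intro u hu e
    have : u ≤ α := hαmax ⟨⟨hαI.1.trans hu.1.le, hu.2.le.trans hβI.2⟩, by
      change φ u = φ t
      rw [e, hα']⟩
    linarith [hu.1]
  have hfirst : ∀ u ∈ Ioo α β, φ u ≠ φ β := by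
    intro u hu e
    have : β ≤ u := hβmin ⟨⟨hu.1.le, hu.2.le.trans hβI.2⟩, by
      change φ u = φ t'
      rw [e, hβ']⟩
    linarith [hu.2]
  have hαP : φ α ∈ P := by rw [hα']; exact htP
  have hβP : φ β ∈ P := by rw [hβ']; exact htP'
  -- periods
  obtain ⟨Na, hNa1, hNa⟩ := h5 D φ (fun z => f.eval z) hD2 hφ.cont hφ.per hφ.conj hbu hlift
    (φ α) ⟨α, rfl⟩ hαP.2
  obtain ⟨Nb, hNb1, hNb⟩ := h5 D φ (fun z => f.eval z) hD2 hφ.cont hφ.per hφ.conj hbu hlift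
    (φ β) ⟨β, rfl⟩ hβP.2
  set N := Na * (2 * Nb) with hN
  have hN' : N = Nb * (2 * Na) := by rw [hN]; ring
  have hN2 : 2 ≤ N := by
    have : 1 * (2 * 1) ≤ Na * (2 * Nb) := Nat.mul_le_mul hNa1 (Nat.mul_le_mul le_rfl hNb1)
    omega
  obtain ⟨F, hFe, hFd, hFK, hFH⟩ := h2 f hD.hyp N (by omega)
  have hFJ : JJ F = JJ f := by unfold JJ; rw [hFK]
  have hFdR : (F.natDegree : ℝ) = (D : ℝ) ^ N := by rw [hFd]; push_cast; rfl
  refine ⟨F, α, β, hFK, ?_⟩
  have hU' : ∀ u, φ u ∈ JJ f := fun u => by rw [← hφ.rng]; exact ⟨u, rfl⟩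
  refine
    { deg := ?_, ex := ?_, bas := h1 F hFH.deg, cont := hφ.cont, per := hφ.per, conj := ?_,
      rng := by rw [hFJ]; exact hφ.rng, bu := ?_, ab := hab, ba := by linarith, ne := hneαβ,
      nearα := ?_, nearβ := ?_, fixα := ?_, fixβ := ?_, lastα := hlast, firstβ := hfirst,
      sat := ?_ }
  · -- deg
    rw [hFd]
    calc 3 ≤ 2 ^ 2 := by norm_num
      _ ≤ D ^ 2 := Nat.pow_le_pow_left hD2 2
      _ ≤ D ^ N := Nat.pow_le_pow_right (by omega) hN2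
  · -- ex
    refine ⟨hr, ?_⟩
    intro x hx w hw z hz
    rw [hFJ] at hx
    rw [hFe] at hz
    obtain ⟨g, g1, g2, _, g4, g5⟩ := (h3 f r hB hD.ex N).2 x hx w hw z hz
    refine ⟨g, g1, g2, fun u hu => by rw [hFe]; exact g4 u hu, ?_⟩
    intro u hu v hv
    refine (g5 u hu v hv).trans ?_
    have h2N : (2 : ℝ) ≤ 2 ^ N := by
      calc (2 : ℝ) = 2 ^ 1 := by norm_num
        _ ≤ 2 ^ N := pow_le_pow_right₀ (by norm_num) (by omega)
    exact div_le_div_of_nonneg_left dist_nonneg (by norm_num) h2N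
  · -- conj
    intro u
    rw [hFe, it_phi hφ.conj N u, hFdR]
  · -- bu
    intro u u' h hk
    rw [hFdR] at hk
    exact bu_pow hφ.conj hbu N u u' h hk
  · -- nearα
    intro u hu
    apply hδu
    rw [abs_le]
    constructor <;> linarith [hu.1, hu.2]
  · -- nearβ
    intro u hu
    apply hδu
    rw [abs_le]
    constructor <;> linarith [hu.1, hu.2]
  · -- fixα
    intro u hu
    rw [hFdR, hN]
    exact per_pow hNa (2 * Nb) u hu
  · -- fixβ
    intro u hu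
    rw [hFdR, hN']
    exact per_pow hNb (2 * Na) u hu
  · -- sat
    intro u hu u' huu
    set k : ℤ := -⌊u' - α⌋ with hk
    have f1 : (⌊u' - α⌋ : ℝ) ≤ u' - α := Int.floor_le _
    have f2 : u' - α < ⌊u' - α⌋ + 1 := Int.lt_floor_add_one _
    have f3 : (k : ℝ) = -(⌊u' - α⌋ : ℝ) := by rw [hk]; push_cast; ring
    have g1 : α ≤ u' + k := by rw [f3]; linarith
    have g2 : u' + k < α + 1 := by rw [f3]; linarith
    have g3 : φ (u' + k) = φ u := by rw [per_int hφ.per, huu]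
    refine ⟨k, ?_⟩
    have g4 : u' + k ≠ α := fun e => hlast u hu (by rw [← g3, e])
    have g5 : α < u' + k := lt_of_le_of_ne g1 (Ne.symm g4)
    refine ⟨g5, ?_⟩
    by_contra hcon
    push Not at hcon
    have g6 : u' + k ≠ β := fun e => hfirst u hu (by rw [← g3, e])
    have g7 : β < u' + k := lt_of_le_of_ne hcon (Ne.symm g6)
    have hKc : IsClosed (KK f) := hB.cpt.isClosed
    have hclos : closure U ⊆ KK f := hKc.closure_subset_iff.2 hD.sub
    have hαc : φ α ∈ closure U := frontier_subset_closure hαP.1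
    have hβc : φ β ∈ closure U := frontier_subset_closure hβP.1
    refine h6 f Φ φ hB hΦ hφ (U ∪ {φ α, φ β}) u β (u' + k) (α + 1) ?_ ?_ hu.2 g7 g2
      (by linarith [hu.1]) g3.symm ?_ ?_ ?_
    · refine hD.co.isPreconnected.subset_closure subset_union_left ?_
      rintro z (hz | hz | hz)
      · exact subset_closure hz
      · rw [hz]; exact hαc
      · rw [mem_singleton_iff] at hz; rw [hz]; exact hβc
    · rintro z (hz | hz | hz)
      · exact hD.sub hz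
      · rw [hz]; exact hclos hαc
      · rw [mem_singleton_iff] at hz; rw [hz]; exact hclos hβc
    · rintro (hz | hz | hz)
      · have hint : φ u ∈ interior (KK f) := interior_maximal hD.sub hD.op hz
        have hfr : φ u ∈ frontier (KK f) := hU' u
        exact hfr.2 hint
      · exact hlast u hu hz
      · exact hfirst u hu hz
    · rw [hφ.per]
      right; left; rfl
    · right; right; rfl

end Pool.Agent.W368.JQ
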